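import Pool.Agent.W937.FG.Final
import Pool.Agent.W937.FG.G1
import Pool.Agent.W924.FG.G2
import Pool.Agent.W52.FG.G3
import Pool.Agent.W52.FG.E1
import Pool.Agent.W440.FG.E2
import Pool.Agent.W366.FG.FGF
import Pool.Agent.W298.FG.AS1
import Pool.Agent.W45.FG2.AS2
import Pool.Agent.W397.FG.AC1
import Pool.Agent.W101.FG.AC2
import Pool.Agent.W978.FG.C0
import Pool.Agent.W214.FG.C1
import Pool.Agent.W440.FG.C2
import Pool.Agent.W440.FG.C3
import Pool.Agent.W74.FG.C4
import Pool.Agent.W249.FG.TOPS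
import Pool.Agent.W839.FG.TOPC
import Pool.Agent.W298.FG.P2

set_option autoImplicit false

namespace Pool.Agent.W937.FG

theorem hG : PropG := propG_of Pool.Agent.W937.FG.G1.main Pool.Agent.W924.FG.main Pool.Agent.W52.FG.G3.main
theorem hF : PropF := Pool.Agent.W366.FG.main
theorem hC0 : PropC0 := Pool.Agent.W978.FG.main
theorem hC : PropC := propC_of (Pool.Agent.W214.FG.main hC0) (Pool.Agent.W440.FG.C2.main hC0) (Pool.Agent.W440.FG.C3.main hC0)
theorem hC4 : PropC4 := Pool.Agent.W74.FG.C4.main hC0 hC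
theorem hTOPS : PropTOPS := Pool.Agent.W249.FG.main Pool.Agent.W52.FG.E1.main hF (Pool.Agent.W298.FG.AS1.main hF) (Pool.Agent.W45.FG2.AS2.main hF)
theorem hTOPC : PropTOPC := Pool.Agent.W839.FG.main Pool.Agent.W440.FG.E2.main Pool.Agent.W397.FG.main Pool.Agent.W101.FG.AC2.main
theorem hP2 (h : PropP1) : PropP2 := Pool.Agent.W298.FG.P2.main h

end Pool.Agent.W937.FG
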