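import Mathlib

/-!
Project FG (helper937), problem MP_9d0328_lc: erasing rules in forbidding grammars.
Common definitions.
-/

set_option autoImplicit false

namespace Pool.Agent.W937.FG

open Relation

/-! ### Grammars -/

/-- a rule `(A → x, F)` of a forbidding grammar with terminals `T` and nonterminals `N` -/
abbrev Rule (T N : Type) : Type := N × List (Symbol T N) × Finset N

/-- one derivation step of the forbidding grammar with rule set `P`: the rule `(A → x, F)` may
rewrite an occurrence of `A` in `α` only if no symbol of `F` occurs in `α` -/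
def Step {T N : Type} (P : Set (Rule T N)) (α β : List (Symbol T N)) : Prop :=
  ∃ (u v : List (Symbol T N)) (A : N) (x : List (Symbol T N)) (F : Finset N),
    (A, x, F) ∈ P ∧ α = u ++ [Symbol.nonterminal A] ++ v ∧ β = u ++ x ++ v ∧
      ∀ B ∈ F, Symbol.nonterminal B ∉ α

/-- the terminal word `w` is generated from the start symbol `S` -/
def Gen {T N : Type} (P : Set (Rule T N)) (S : N) (w : List T) : Prop :=
  ReflTransGen (Step P) [Symbol.nonterminal S] (w.map Symbol.terminal)

/-- a rule `(l → r, F)` of a general rewriting grammar with forbidding sets -/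
abbrev GRule (T N : Type) : Type := List (Symbol T N) × List (Symbol T N) × Finset N

/-- one derivation step of a general rewriting grammar with forbidding sets -/
def GStep {T N : Type} (P : Set (GRule T N)) (α β : List (Symbol T N)) : Prop :=
  ∃ (u v l r : List (Symbol T N)) (F : Finset N),
    (l, r, F) ∈ P ∧ α = u ++ l ++ v ∧ β = u ++ r ++ v ∧ ∀ B ∈ F, Symbol.nonterminal B ∉ α

/-- the terminal word `w` is generated from the start symbol `S` -/
def GGen {T N : Type} (P : Set (GRule T N)) (S : N) (w : List T) : Prop :=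
  ReflTransGen (GStep P) [Symbol.nonterminal S] (w.map Symbol.terminal)

/-- the word `a^m b^m c^m` over the alphabet `Fin 3` -/
def abc (m : ℕ) : List (Fin 3) :=
  List.replicate m 0 ++ List.replicate m 1 ++ List.replicate m 2

/-! ### Counter programs with decrement errors -/

/-- elementary operations: registers `K`, output letters `T` -/
inductive Op (T K : Type) : Type
  | nop
  | inc (i : K)
  | dec (i : K)
  | zero (i : K)
  | out (c : T)

/-- effect of one elementary operation; with `e = true` a decrement may have no effect -/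
def ExecO {T K : Type} [DecidableEq K] (e : Bool) (o : Op T K) (s : K → ℕ) (w : List T)
    (s' : K → ℕ) : Prop :=
  match o with
  | .nop => w = [] ∧ s' = s
  | .inc i => w = [] ∧ s' = Function.update s i (s i + 1)
  | .dec i => w = [] ∧ ((0 < s i ∧ s' = Function.update s i (s i - 1)) ∨ (e = true ∧ s' = s))
  | .zero i => w = [] ∧ s i = 0 ∧ s' = s
  | .out c => w = [c] ∧ s' = s

/-- regular programs -/
inductive Prog (T K : Type) : Type
  | op (o : Op T K)
  | seq (p q : Prog T K)
  | alt (p q : Prog T K)
  | star (p : Prog T K)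

/-- `Exec e p s w s'`: program `p` has a run from register contents `s` to `s'` with output `w`;
for `e = true` decrements may fail to act -/
inductive Exec {T K : Type} [DecidableEq K] (e : Bool) :
    Prog T K → (K → ℕ) → List T → (K → ℕ) → Prop
  | op {o : Op T K} {s : K → ℕ} {w : List T} {s' : K → ℕ} (h : ExecO e o s w s') :
      Exec e (.op o) s w s'
  | seq {p q : Prog T K} {s t u : K → ℕ} {w x : List T} (h1 : Exec e p s w t)
      (h2 : Exec e q t x u) : Exec e (.seq p q) s (w ++ x) u
  | altl {p q : Prog T K} {s t : K → ℕ} {w : List T} (h : Exec e p s w t) :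
      Exec e (.alt p q) s w t
  | altr {p q : Prog T K} {s t : K → ℕ} {w : List T} (h : Exec e q s w t) :
      Exec e (.alt p q) s w t
  | star_nil {p : Prog T K} {s : K → ℕ} : Exec e (.star p) s [] s
  | star_cons {p : Prog T K} {s t u : K → ℕ} {w x : List T} (h1 : Exec e p s w t)
      (h2 : Exec e (.star p) t x u) : Exec e (.star p) s (w ++ x) u

/-- runs in a finite automaton whose edges carry elementary operations -/
inductive Path {T K Q : Type} [DecidableEq K] (e : Bool) (δ : Set (Q × Op T K × Q)) :
    Q → (K → ℕ) → List T → Q → (K → ℕ) → Prop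
  | refl (q : Q) (s : K → ℕ) : Path e δ q s [] q s
  | step {q q' q'' : Q} {o : Op T K} {s s' s'' : K → ℕ} {w x : List T} (hδ : (q, o, q') ∈ δ)
      (h1 : ExecO e o s w s') (h2 : Path e δ q' s' x q'' s'') : Path e δ q s (w ++ x) q'' s''

/-! ### Programs with a budget -/

/-- exact semantics with budget: the state is `(x, s)` with budget `x` and registers `s`; an
increment costs one unit of budget, a decrement gives it back -/
inductive MExec : Prog Empty ℕ → ℕ × (ℕ → ℕ) → ℕ × (ℕ → ℕ) → Prop
  | nop (c : ℕ × (ℕ → ℕ)) : MExec (.op .nop) c c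
  | inc (i x : ℕ) (s : ℕ → ℕ) :
      MExec (.op (.inc i)) (x + 1, s) (x, Function.update s i (s i + 1))
  | dec (i x : ℕ) (s : ℕ → ℕ) (h : 0 < s i) :
      MExec (.op (.dec i)) (x, s) (x + 1, Function.update s i (s i - 1))
  | zero (i x : ℕ) (s : ℕ → ℕ) (h : s i = 0) : MExec (.op (.zero i)) (x, s) (x, s)
  | seq {p q : Prog Empty ℕ} {c d f : ℕ × (ℕ → ℕ)} (h1 : MExec p c d) (h2 : MExec q d f) :
      MExec (.seq p q) c f
  | altl {p q : Prog Empty ℕ} {c d : ℕ × (ℕ → ℕ)} (h : MExec p c d) : MExec (.alt p q) c d
  | altr {p q : Prog Empty ℕ} {c d : ℕ × (ℕ → ℕ)} (h : MExec q c d) : MExec (.alt p q) c d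
  | star_nil {p : Prog Empty ℕ} (c : ℕ × (ℕ → ℕ)) : MExec (.star p) c c
  | star_cons {p : Prog Empty ℕ} {c d f : ℕ × (ℕ → ℕ)} (h1 : MExec p c d)
      (h2 : MExec (.star p) d f) : MExec (.star p) c f

/-! ### The registers of the main program -/

/-- registers of the main program: the budget `N`, a scratch register `T`, the amplifier
registers `A j` and the work registers `M i` -/
inductive Reg : Type
  | N
  | T
  | A (j : ℕ)
  | M (i : ℕ)
  deriving DecidableEq

/-- register contents given by components -/
def st (n t : ℕ) (a r : ℕ → ℕ) : Reg → ℕ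
  | .N => n
  | .T => t
  | .A j => a j
  | .M i => r i

/-- translation of budget programs: the budget is kept in `N` -/
def tr (T : Type) : Prog Empty ℕ → Prog T Reg
  | .op .nop => .op .nop
  | .op (.inc i) => .seq (.op (.dec .N)) (.op (.inc (.M i)))
  | .op (.dec i) => .seq (.op (.dec (.M i))) (.op (.inc .N))
  | .op (.zero i) => .op (.zero (.M i))
  | .op (.out c) => c.elim
  | .seq p q => .seq (tr T p) (tr T q)
  | .alt p q => .alt (tr T p) (tr T q)
  | .star p => .star (tr T p)

/-! ### The amplifier -/

/-- the fast growing functions `F_0 n = n + 1`, `F_{j+1} n = F_j^{n+1} n` -/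
def F : ℕ → ℕ → ℕ
  | 0, n => n + 1
  | j + 1, n => (F j)^[n + 1] n

/-- the value `F_k^{a_k} (... F_0^{a_0} n)` -/
def V (a : ℕ → ℕ) : ℕ → ℕ → ℕ
  | 0, n => (F 0)^[a 0] n
  | k + 1, n => (F (k + 1))^[a (k + 1)] (V a k n)

section
variable (T : Type)

/-- abbreviations for elementary programs -/
def incP (i : Reg) : Prog T Reg := .op (.inc i)
def decP (i : Reg) : Prog T Reg := .op (.dec i)
def zeroP (i : Reg) : Prog T Reg := .op (.zero i)

/-- zero tests of `A 0, ..., A (j-1)` -/
def zeroA : ℕ → Prog T Reg
  | 0 => .op .nop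
  | j + 1 => .seq (zeroA j) (zeroP T (.A j))

/-- while `N > 0`: decrement `N`, increment `T`, run `p`, with final zero test; then while
`T > 0`: decrement `T`, increment `N`, with final zero test -/
def sweep (p : Prog T Reg) : Prog T Reg :=
  .seq (.star (.seq (decP T .N) (.seq (incP T .T) p)))
    (.seq (zeroP T .N)
      (.seq (.star (.seq (decP T .T) (incP T .N))) (zeroP T .T)))

/-- forward macros: `S 0` decrements `A_0` and increments `N`; `S (j+1)` tests `A_0 = ... = A_j = 0`, decrements
`A_{j+1}`, sets `A_j := N + 1` -/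
def SM : ℕ → Prog T Reg
  | 0 => .seq (decP T (.A 0)) (incP T .N)
  | j + 1 => .seq (zeroA T (j + 1)) (.seq (decP T (.A (j + 1)))
      (.seq (sweep T (incP T (.A j))) (incP T (.A j))))

/-- backward macros: `B 0` decrements `N` and increments `A_0`; `B (j+1)` tests `A_0 = ... = A_{j-1} = 0`,
removes `N + 1` from `A_j` down to zero and increments `A_{j+1}` -/
def BM : ℕ → Prog T Reg
  | 0 => .seq (decP T .N) (incP T (.A 0))
  | j + 1 => .seq (zeroA T j) (.seq (decP T (.A j))
      (.seq (.star (.seq (decP T .N) (.seq (incP T .T) (decP T (.A j)))))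
        (.seq (zeroP T (.A j))
          (.seq (zeroP T .N)
            (.seq (.star (.seq (decP T .T) (incP T .N)))
              (.seq (zeroP T .T) (incP T (.A (j + 1)))))))))

/-- choice among `p 0, ..., p k` -/
def altP (p : ℕ → Prog T Reg) : ℕ → Prog T Reg
  | 0 => p 0
  | k + 1 => .alt (altP p k) (p (k + 1))

/-- amplify -/
def Sall (k : ℕ) : Prog T Reg := .star (altP T (SM T) k)

/-- reverse amplification -/
def Ball (k : ℕ) : Prog T Reg := .star (altP T (BM T) k)

end

/-- the main program -/
def top (k : ℕ) (M : Prog Empty ℕ) : Prog (Fin 3) Reg :=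
  .seq (.star (.seq (.op (.out 0)) (.seq (incP _ .N) (incP _ (.M 0)))))
    (.seq (incP _ .N)
      (.seq (incP _ (.A k))
        (.seq (Sall _ k)
          (.seq (zeroA _ (k + 1))
            (.seq (tr _ M)
              (.seq (.star (.seq (.op (.out 1)) (decP _ .N)))
                (.seq (Ball _ k)
                  (.seq (decP _ (.A k))
                    (.seq (zeroA _ (k + 1))
                      (.seq (.star (.seq (.op (.out 2)) (decP _ .N))) (decP _ .N)))))))))))

end Pool.Agent.W937.FG
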