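import Pool.Agent.W937.FG.Stm

set_option autoImplicit false

namespace Pool.Agent.W937.FG

open Relation Function

theorem propG_of (h1 : PropG1) (h2 : PropG2) (h3 : PropG3) : PropG := by
  intro T K _ p
  obtain ⟨K', dK', fK', p', hp'⟩ := h3 T K p
  obtain ⟨Q, fQ, q0, qf, δ, hδ, hQ⟩ := h1 T K' p'
  obtain ⟨N, fN, S, P, hP, hG⟩ := h2 T K' Q q0 qf δ hδ
  exact ⟨N, fN, S, P, hP, fun w => by rw [hG w, ← hQ, ← hp' w]⟩

theorem propC_of (h1 : PropC1) (h2 : PropC2) (h3 : PropC3) : PropC := by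
  intro n f hf
  induction hf with
  | zero => exact h1.1
  | succ => exact h1.2.1
  | get i => exact h1.2.2 _ i
  | comp g _ _ ihf ihg => exact h2 _ _ _ _ ihf ihg
  | prec _ _ ihf ihg => exact h3 _ _ _ ihf ihg

/-- every primitive recursive predicate `f m = 1` is encoded by a forbidding grammar with erasing
rules: the word `a^m b^m c^m` is generated iff `f m = 1` -/
theorem primrec_of (hG : PropG) (hF : PropF) (h4 : PropC4) (hS : PropTOPS) (hC : PropTOPC)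
    (f : ℕ → ℕ) (hf : Nat.Primrec f) :
    ∃ (N : Type) (_ : Finite N) (S : N) (P : Set (Rule (Fin 3) N)), P.Finite ∧
      ∀ m : ℕ, Gen P S (abc m) ↔ f m = 1 := by
  obtain ⟨M, b, hb, hM1, hM2⟩ := h4 f hf
  obtain ⟨k, hk⟩ := exists_lt_ack_of_nat_primrec hb
  obtain ⟨N, fN, S, P, hP, hGen⟩ := hG (Fin 3) Reg (top k M)
  refine ⟨N, fN, S, P, hP, fun m => ?_⟩
  rw [hGen (abc m)]
  refine ⟨fun h => hS f M k hM1 m h, fun h => hC f b M k hM2 m ?_ h⟩
  have h1 : b m ≤ ack k (m + 1) := (hk m).le.trans (ack_mono_right k (Nat.le_succ m))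
  exact h1.trans (hF.2.2.2.2.2 k (m + 1) (by omega))

/-- propagating forbidding grammars are special noncontracting grammars -/
theorem gen_iff_gGen {T N : Type} (P : Set (Rule T N)) (S : N) (w : List T) :
    Gen P S w ↔ GGen ((fun ρ : Rule T N => (([Symbol.nonterminal ρ.1], ρ.2.1, ρ.2.2) :
      GRule T N)) '' P) S w := by
  have hst : Step P = GStep ((fun ρ : Rule T N =>
      (([Symbol.nonterminal ρ.1], ρ.2.1, ρ.2.2) : GRule T N)) '' P) := by
    funext α β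
    apply propext
    constructor
    · rintro ⟨u, v, A, x, F, hP, hα, hβ, hF⟩
      exact ⟨u, v, [Symbol.nonterminal A], x, F, ⟨(A, x, F), hP, rfl⟩, hα, hβ, hF⟩
    · rintro ⟨u, v, l, r, F, ⟨⟨A, x, F'⟩, hP, he⟩, hα, hβ, hF⟩
      simp only [Prod.mk.injEq] at he
      obtain ⟨rfl, rfl, rfl⟩ := he
      exact ⟨u, v, A, x, F', hP, hα, hβ, hF⟩
  unfold Gen GGen
  rw [hst]

theorem final (hG : PropG) (hF : PropF) (h4 : PropC4) (hS : PropTOPS) (hC : PropTOPC)
    (hP : PropP2) :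
    ∃ (N : Type) (_ : Finite N) (S : N) (P : Set (Rule (Fin 3) N)), P.Finite ∧
      (∀ (N' : Type) [Finite N'] (S' : N') (P' : Set (Rule (Fin 3) N')), P'.Finite →
        (∀ ρ ∈ P', ρ.2.1 ≠ []) →
        ∃ w : List (Fin 3), w ≠ [] ∧ ¬ (Gen P S w ↔ Gen P' S' w)) ∧
      (∀ (N' : Type) [Finite N'] (S' : N') (P' : Set (GRule (Fin 3) N')), P'.Finite →
        (∀ ρ ∈ P', ρ.1.length ≤ ρ.2.1.length) →
        ∃ w : List (Fin 3), w ≠ [] ∧ ¬ (Gen P S w ↔ GGen P' S' w)) := by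
  obtain ⟨f, hf, hdiag⟩ := hP
  obtain ⟨N, fN, S, P, hPf, hGen⟩ := primrec_of hG hF h4 hS hC f hf
  have key : ∀ (N' : Type) [Finite N'] (S' : N') (P' : Set (GRule (Fin 3) N')), P'.Finite →
        (∀ ρ ∈ P', ρ.1.length ≤ ρ.2.1.length) →
        ∃ w : List (Fin 3), w ≠ [] ∧ ¬ (Gen P S w ↔ GGen P' S' w) := by
    intro N' _ S' P' hP' hlen
    obtain ⟨m, hm, hd⟩ := hdiag N' S' P' hP' hlen
    refine ⟨abc m, ?_, ?_⟩
    · intro h
      have := congrArg List.length h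
      simp [abc] at this
      omega
    · rw [hGen m]
      tauto
  refine ⟨N, fN, S, P, hPf, ?_, key⟩
  intro N' _ S' P' hP' hprop
  obtain ⟨w, hw, hne⟩ := key N' S' ((fun ρ : Rule (Fin 3) N' =>
      (([Symbol.nonterminal ρ.1], ρ.2.1, ρ.2.2) : GRule (Fin 3) N')) '' P') (hP'.image _) (by
    rintro _ ⟨ρ, hρ, rfl⟩
    have := hprop ρ hρ
    simp only [List.length_singleton]
    exact List.length_pos_iff.2 this)
  refine ⟨w, hw, ?_⟩
  rw [gen_iff_gGen P' S' w]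
  exact hne

end Pool.Agent.W937.FG
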