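import Pool.Agent.W937.FG.Defs

/-!
Project FG (helper937), problem MP_9d0328_lc: exact statements of the parts.
-/

set_option autoImplicit false

namespace Pool.Agent.W937.FG

open Relation Function

/-! ### G: programs and grammars -/

/-- G1 (Thompson construction) -/
def PropG1 : Prop :=
  ∀ (T K : Type) [DecidableEq K] (p : Prog T K),
    ∃ (Q : Type) (_ : Finite Q) (q0 qf : Q) (δ : Set (Q × Op T K × Q)), δ.Finite ∧
      ∀ (e : Bool) (s : K → ℕ) (w : List T) (s' : K → ℕ),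
        Exec e p s w s' ↔ Path e δ q0 s w qf s'

/-- G2 (forbidding grammars simulate automata with decrement errors) -/
def PropG2 : Prop :=
  ∀ (T K Q : Type) [DecidableEq K] [Finite K] [Finite Q] (q0 qf : Q)
    (δ : Set (Q × Op T K × Q)), δ.Finite →
    ∃ (N : Type) (_ : Finite N) (S : N) (P : Set (Rule T N)), P.Finite ∧
      ∀ w : List T, Gen P S w ↔ Path true δ q0 (fun _ => 0) w qf (fun _ => 0)

/-- G3 (only finitely many registers are used) -/
def PropG3 : Prop :=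
  ∀ (T K : Type) [DecidableEq K] (p : Prog T K),
    ∃ (K' : Type) (_ : DecidableEq K') (_ : Finite K') (p' : Prog T K'),
      ∀ w : List T, Exec true p (fun _ => 0) w (fun _ => 0) ↔
        Exec true p' (fun _ => 0) w (fun _ => 0)

/-- G (consequence of G1, G2, G3) -/
def PropG : Prop :=
  ∀ (T K : Type) [DecidableEq K] (p : Prog T K),
    ∃ (N : Type) (_ : Finite N) (S : N) (P : Set (Rule T N)), P.Finite ∧
      ∀ w : List T, Gen P S w ↔ Exec true p (fun _ => 0) w (fun _ => 0)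

/-! ### E: the budget translation -/

/-- E1: a run of `tr T M` with errors never decreases the total, and keeps it only if it is
exact -/
def PropE1 : Prop :=
  ∀ (T : Type) (M : Prog Empty ℕ), ∃ R0 : ℕ, ∀ R ≥ R0, ∀ (x t : ℕ) (a r : ℕ → ℕ) (w : List T)
    (s' : Reg → ℕ), Exec true (tr T M) (st x t a r) w s' →
      w = [] ∧ ∃ (x' : ℕ) (r' : ℕ → ℕ), s' = st x' t a r' ∧ (∀ i, R ≤ i → r' i = r i) ∧
        x + ∑ i ∈ Finset.range R, r i ≤ x' + ∑ i ∈ Finset.range R, r' i ∧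
        (x' + ∑ i ∈ Finset.range R, r' i = x + ∑ i ∈ Finset.range R, r i →
          MExec M (x, r) (x', r'))

/-- E2: exact budget runs are runs of the translated program -/
def PropE2 : Prop :=
  ∀ (T : Type) (M : Prog Empty ℕ) (x x' t : ℕ) (a r r' : ℕ → ℕ),
    MExec M (x, r) (x', r') → Exec true (tr T M) (st x t a r) ([] : List T) (st x' t a r')

/-! ### F: the fast growing functions -/

def PropF : Prop :=
  (∀ k, Monotone (F k)) ∧ (∀ k n, n ≤ F k n) ∧
  (∀ (a : ℕ → ℕ) (k n : ℕ), (∀ j ≤ k, a j = 0) → V a k n = n) ∧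
  (∀ k n, V (update (fun _ => 0) k 1) k n = F k n) ∧
  (∀ (a a' : ℕ → ℕ) (k n n' : ℕ), (∀ j ≤ k, a j ≤ a' j) → n ≤ n' → V a k n ≤ V a' k n') ∧
  (∀ k n, 1 ≤ n → ack k n ≤ F k n)

/-! ### AS, AC: the amplifier -/

def PropAS1 : Prop :=
  ∀ (T : Type) (k n : ℕ) (a r : ℕ → ℕ) (w : List T) (s' : Reg → ℕ),
    Exec true (Sall T k) (st n 0 a r) w s' →
      w = [] ∧ ∃ (n' : ℕ) (a' : ℕ → ℕ), s' = st n' 0 a' r ∧ (∀ j, k < j → a' j = a j) ∧
        V a k n ≤ V a' k n'

def PropAS2 : Prop :=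
  ∀ (T : Type) (k n : ℕ) (a r : ℕ → ℕ) (w : List T) (s' : Reg → ℕ),
    Exec true (Ball T k) (st n 0 a r) w s' →
      w = [] ∧ ∃ (n' : ℕ) (a' : ℕ → ℕ), s' = st n' 0 a' r ∧ (∀ j, k < j → a' j = a j) ∧
        V a k n ≤ V a' k n'

def PropAC1 : Prop :=
  ∀ (T : Type) (k n : ℕ) (r : ℕ → ℕ),
    Exec true (Sall T k) (st n 0 (update (fun _ => 0) k 1) r) ([] : List T)
      (st (F k n) 0 (fun _ => 0) r)

def PropAC2 : Prop :=
  ∀ (T : Type) (k n : ℕ) (r : ℕ → ℕ),
    Exec true (Ball T k) (st (F k n) 0 (fun _ => 0) r) ([] : List T)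
      (st n 0 (update (fun _ => 0) k 1) r)

/-! ### C: compiling primitive recursive functions to budget programs -/

/-- set register `i` to zero -/
def clearP (i : ℕ) : Prog Empty ℕ := .seq (.star (.op (.dec i))) (.op (.zero i))

/-- add register `i` to register `j` and set `i` to zero -/
def moveP (i j : ℕ) : Prog Empty ℕ :=
  .seq (.star (.seq (.op (.dec i)) (.op (.inc j)))) (.op (.zero i))

/-- add register `i` to register `j`, with scratch register `t` -/
def copyP (i j t : ℕ) : Prog Empty ℕ :=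
  .seq (.star (.seq (.op (.dec i)) (.seq (.op (.inc j)) (.op (.inc t)))))
    (.seq (.op (.zero i)) (.seq (.star (.seq (.op (.dec t)) (.op (.inc i)))) (.op (.zero t))))

def PropC0 : Prop :=
  (∀ (i x x' : ℕ) (s s' : ℕ → ℕ), MExec (clearP i) (x, s) (x', s') ↔
    s' = update s i 0 ∧ x' = x + s i) ∧
  (∀ (i j x x' : ℕ) (s s' : ℕ → ℕ), i ≠ j → (MExec (moveP i j) (x, s) (x', s') ↔
    s' = update (update s i 0) j (s j + s i) ∧ x' = x)) ∧
  (∀ (i j t x x' : ℕ) (s s' : ℕ → ℕ), i ≠ j → i ≠ t → j ≠ t → s t = 0 →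
    (MExec (copyP i j t) (x, s) (x', s') ↔ s' = update s j (s j + s i) ∧ x = x' + s i))

/-- `f` can be computed by budget programs: inputs are in the registers `ι i < s0`, the output
goes to register `s0`, all registers `≥ s0` are zero before and all registers except `s0` are
unchanged at the end; every (exact) run is correct, and there is one if the budget is at least
`b v` for a primitive recursive bound `b` -/
def Comp {n : ℕ} (f : List.Vector ℕ n → ℕ) : Prop :=
  Nat.Primrec' f ∧ ∃ b : List.Vector ℕ n → ℕ, Nat.Primrec' b ∧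
    ∀ (ι : Fin n → ℕ) (s0 : ℕ), (∀ i, ι i < s0) →
      ∃ M : Prog Empty ℕ, ∀ (x : ℕ) (s : ℕ → ℕ), (∀ j, s0 ≤ j → s j = 0) →
        (∀ (x' : ℕ) (s' : ℕ → ℕ), MExec M (x, s) (x', s') →
          s' = update s s0 (f (List.Vector.ofFn fun i => s (ι i))) ∧
          x = x' + f (List.Vector.ofFn fun i => s (ι i))) ∧
        (b (List.Vector.ofFn fun i => s (ι i)) ≤ x →
          ∃ x', MExec M (x, s) (x', update s s0 (f (List.Vector.ofFn fun i => s (ι i)))))

def PropC1 : Prop :=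
  (@Comp 0 fun _ => 0) ∧ (@Comp 1 fun v => Nat.succ v.head) ∧
    (∀ (n : ℕ) (i : Fin n), Comp fun v : List.Vector ℕ n => v.get i)

def PropC2 : Prop :=
  ∀ (m n : ℕ) (f : List.Vector ℕ n → ℕ) (g : Fin n → List.Vector ℕ m → ℕ),
    Comp f → (∀ i, Comp (g i)) → Comp fun a => f (List.Vector.ofFn fun i => g i a)

def PropC3 : Prop :=
  ∀ (n : ℕ) (f : List.Vector ℕ n → ℕ) (g : List.Vector ℕ (n + 2) → ℕ),
    Comp f → Comp g → Comp fun v : List.Vector ℕ (n + 1) =>
      v.head.rec (f v.tail) fun y IH => g (y ::ᵥ IH ::ᵥ v.tail)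

/-- C (consequence of C1, C2, C3) -/
def PropC : Prop := ∀ (n : ℕ) (f : List.Vector ℕ n → ℕ), Nat.Primrec' f → Comp f

/-- C4: budget programs accept primitive recursive predicates -/
def PropC4 : Prop :=
  ∀ f : ℕ → ℕ, Nat.Primrec f → ∃ (M : Prog Empty ℕ) (b : ℕ → ℕ), Nat.Primrec b ∧
    (∀ m x x' : ℕ, MExec M (x, update (fun _ => 0) 0 m) (x', fun _ => 0) → f m = 1) ∧
    (∀ m x : ℕ, f m = 1 → b m ≤ x →
      MExec M (x, update (fun _ => 0) 0 m) (x + m, fun _ => 0))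

/-! ### TOP: the main program -/

def PropTOPS : Prop :=
  ∀ (f : ℕ → ℕ) (M : Prog Empty ℕ) (k : ℕ),
    (∀ m x x' : ℕ, MExec M (x, update (fun _ => 0) 0 m) (x', fun _ => 0) → f m = 1) →
    ∀ m : ℕ, Exec true (top k M) (fun _ => 0) (abc m) (fun _ => 0) → f m = 1

def PropTOPC : Prop :=
  ∀ (f b : ℕ → ℕ) (M : Prog Empty ℕ) (k : ℕ),
    (∀ m x : ℕ, f m = 1 → b m ≤ x →
      MExec M (x, update (fun _ => 0) 0 m) (x + m, fun _ => 0)) →
    ∀ m : ℕ, b m ≤ F k (m + 1) → f m = 1 →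
      Exec true (top k M) (fun _ => 0) (abc m) (fun _ => 0)

/-! ### P: diagonalisation -/

/-- a coded grammar: start symbol and rules `(l, r, F)`, all symbols are natural numbers -/
abbrev CG : Type := ℕ × List (List ℕ × List ℕ × List ℕ)

/-- one step of a coded grammar -/
def CStep (G : CG) (α β : List ℕ) : Prop :=
  ∃ (u v l r F : List ℕ), (l, r, F) ∈ G.2 ∧ α = u ++ l ++ v ∧ β = u ++ r ++ v ∧
    ∀ B ∈ F, B ∉ α

/-- P1: derivability in noncontracting coded grammars is primitive recursive -/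
def PropP1 : Prop :=
  ∃ D : CG → List ℕ → Bool, Primrec₂ D ∧
    ∀ (G : CG) (w : List ℕ), (∀ ρ ∈ G.2, ρ.1.length ≤ ρ.2.1.length) →
      (D G w = true ↔ ReflTransGen (CStep G) [G.1] w)

/-- P2: the diagonal function -/
def PropP2 : Prop :=
  ∃ f : ℕ → ℕ, Nat.Primrec f ∧
    ∀ (N : Type) [Finite N] (S : N) (P : Set (GRule (Fin 3) N)), P.Finite →
      (∀ ρ ∈ P, ρ.1.length ≤ ρ.2.1.length) →
      ∃ m : ℕ, 1 ≤ m ∧ (f m = 1 ↔ ¬ GGen P S (abc m))

end Pool.Agent.W937.FG
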